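import Pool.Agent.Q255.HC.Stm

/-!
# Project HC (helper255), job HCI, by helper166
-/

set_option autoImplicit false

namespace Pool.Agent.Q166.HC

open Finset Filter Topology MeasureTheory Pool.Agent.Q255.HC

/-- Minkowski's inequality for powers, with strictly positive bounds -/
theorem mink_pos {Ω J : Type} [MeasurableSpace Ω] (P : Measure Ω) [IsProbabilityMeasure P] (m : ℕ)
    (I : Finset J) (w A : J → ℝ) (G : J → Ω → ℝ) (hw : ∀ j ∈ I, 0 ≤ w j) (hA : ∀ j ∈ I, 0 < A j)
    (hG0 : ∀ j ω, 0 ≤ G j ω) (hGi : ∀ j ∈ I, Integrable (fun ω => G j ω ^ (m + 1)) P)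
    (hG : ∀ j ∈ I, ∫ ω, G j ω ^ (m + 1) ∂P ≤ A j ^ (m + 1)) :
    ∫ ω, (∑ j ∈ I, w j * G j ω) ^ (m + 1) ∂P ≤ (∑ j ∈ I, w j * A j) ^ (m + 1) := by
  set Z : ℝ := ∑ j ∈ I, w j * A j with hZ
  have hZ0 : 0 ≤ Z := Finset.sum_nonneg fun j hj => mul_nonneg (hw j hj) (hA j hj).le
  rcases hZ0.eq_or_lt with hZ0 | hZ0
  · -- all weights vanish
    have h1 : ∀ j ∈ I, w j = 0 := by
      intro j hj
      have h2 := (Finset.sum_eq_zero_iff_of_nonneg (fun j hj => mul_nonneg (hw j hj) (hA j hj).le)).mp
        hZ0.symm j hj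
      rcases mul_eq_zero.mp h2 with h3 | h3
      · exact h3
      · exact absurd h3 (hA j hj).ne'
    have h2 : ∀ ω, (∑ j ∈ I, w j * G j ω) ^ (m + 1) = 0 := by
      intro ω
      rw [Finset.sum_eq_zero fun j hj => by rw [h1 j hj, zero_mul]]
      simp
    simp only [h2, integral_zero]
    positivity
  have hpt : ∀ ω, (∑ j ∈ I, w j * G j ω) ^ (m + 1) ≤
      Z ^ (m + 1) * ∑ j ∈ I, (w j * A j / Z) * (G j ω ^ (m + 1) / A j ^ (m + 1)) := by
    intro ω
    have h1 := Real.pow_arith_mean_le_arith_mean_pow I (fun j => w j * A j / Z) (fun j => G j ω / A j)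
      (fun j hj => div_nonneg (mul_nonneg (hw j hj) (hA j hj).le) hZ0.le)
      (by rw [← Finset.sum_div, ← hZ, div_self hZ0.ne'])
      (fun j hj => div_nonneg (hG0 j ω) (hA j hj).le) (m + 1)
    have h2 : ∑ j ∈ I, (w j * A j / Z) * (G j ω / A j) = (∑ j ∈ I, w j * G j ω) / Z := by
      rw [Finset.sum_div]
      refine Finset.sum_congr rfl fun j hj => ?_
      have := (hA j hj).ne'
      field_simp
    rw [h2, div_pow, div_le_iff₀ (pow_pos hZ0 _)] at h1
    refine h1.trans (le_of_eq ?_)
    rw [mul_comm]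
    congr 1
    refine Finset.sum_congr rfl fun j _ => ?_
    rw [div_pow]
  have hi : ∀ j ∈ I, Integrable (fun ω => (w j * A j / Z) * (G j ω ^ (m + 1) / A j ^ (m + 1))) P :=
    fun j hj => ((hGi j hj).div_const _).const_mul _
  calc ∫ ω, (∑ j ∈ I, w j * G j ω) ^ (m + 1) ∂P
      ≤ ∫ ω, Z ^ (m + 1) * ∑ j ∈ I, (w j * A j / Z) * (G j ω ^ (m + 1) / A j ^ (m + 1)) ∂P := by
        refine integral_mono_of_nonneg (Eventually.of_forall fun ω => ?_)
          ((integrable_finsetSum I hi).const_mul _) (Eventually.of_forall hpt)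
        exact pow_nonneg (Finset.sum_nonneg fun j hj => mul_nonneg (hw j hj) (hG0 j ω)) _
    _ = Z ^ (m + 1) * ∑ j ∈ I, (w j * A j / Z) * ((∫ ω, G j ω ^ (m + 1) ∂P) / A j ^ (m + 1)) := by
        rw [integral_const_mul, integral_finsetSum I hi]
        congr 1
        refine Finset.sum_congr rfl fun j _ => ?_
        rw [integral_const_mul, integral_div]
    _ ≤ Z ^ (m + 1) * ∑ j ∈ I, (w j * A j / Z) * 1 := by
        refine mul_le_mul_of_nonneg_left (Finset.sum_le_sum fun j hj => ?_) (by positivity)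
        refine mul_le_mul_of_nonneg_left ?_ (div_nonneg (mul_nonneg (hw j hj) (hA j hj).le) hZ0.le)
        rw [div_le_one (pow_pos (hA j hj) _)]
        exact hG j hj
    _ = Z ^ (m + 1) := by
        simp only [mul_one]
        rw [← Finset.sum_div, ← hZ, div_self hZ0.ne', mul_one]

theorem mink {Ω J : Type} [MeasurableSpace Ω] (P : Measure Ω) [IsProbabilityMeasure P] (m : ℕ)
    (I : Finset J) (w A : J → ℝ) (G : J → Ω → ℝ) (hw : ∀ j ∈ I, 0 ≤ w j) (hA : ∀ j ∈ I, 0 ≤ A j)
    (hG0 : ∀ j ω, 0 ≤ G j ω) (hGi : ∀ j ∈ I, Integrable (fun ω => G j ω ^ (m + 1)) P)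
    (hG : ∀ j ∈ I, ∫ ω, G j ω ^ (m + 1) ∂P ≤ A j ^ (m + 1)) :
    ∫ ω, (∑ j ∈ I, w j * G j ω) ^ (m + 1) ∂P ≤ (∑ j ∈ I, w j * A j) ^ (m + 1) := by
  have h1 : ∀ η : ℝ, 0 < η → ∫ ω, (∑ j ∈ I, w j * G j ω) ^ (m + 1) ∂P ≤
      (∑ j ∈ I, w j * (A j + η)) ^ (m + 1) := by
    intro η hη
    refine mink_pos P m I w (fun j => A j + η) G hw (fun j hj => by linarith [hA j hj]) hG0 hGi ?_
    intro j hj
    exact (hG j hj).trans (pow_le_pow_left₀ (hA j hj) (by linarith) _)
  have hc : Continuous fun η : ℝ => (∑ j ∈ I, w j * (A j + η)) ^ (m + 1) := by fun_prop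
  have h2 : Tendsto (fun η : ℝ => (∑ j ∈ I, w j * (A j + η)) ^ (m + 1)) (𝓝[>] 0)
      (𝓝 ((∑ j ∈ I, w j * (A j + 0)) ^ (m + 1))) := (hc.tendsto 0).mono_left nhdsWithin_le_nhds
  have h3 := ge_of_tendsto h2 (by
    filter_upwards [self_mem_nhdsWithin] with η hη
    exact h1 η hη)
  simpa using h3

section

variable {E ι : Type} [MeasurableSpace E] [Zero ι] [DecidableEq ι] {μ : Measure E} {e : ι → E → ℂ} {v : ι → ℝ}

theorem ex_meas (h : Sys μ e v) (x : ℕ →₀ ι) : Measurable (ex e x) := by
  unfold ex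
  exact Finset.measurable_prod _ fun p _ => (h.meas _).comp (measurable_pi_apply p)

theorem ex_norm (h : Sys μ e v) (x : ℕ →₀ ι) (ω : ℕ → E) : ‖ex e x ω‖ ≤ 1 := by
  unfold ex
  rw [norm_prod]
  exact Finset.prod_le_one (fun _ _ => norm_nonneg _) fun p _ => h.bd _ _

/-- separate the coordinate `p` -/
theorem ex_split (h : Sys μ e v) (x : ℕ →₀ ι) (p : ℕ) (ω : ℕ → E) :
    ex e x ω = e (x p) (ω p) * ex e (x.erase p) ω := by
  unfold ex
  rw [Finsupp.support_erase]
  by_cases hp : p ∈ x.support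
  · rw [← Finset.mul_prod_erase _ _ hp]
    congr 1
    refine Finset.prod_congr rfl fun q hq => ?_
    rw [Finsupp.erase_ne (Finset.ne_of_mem_erase hq)]
  · rw [Finsupp.notMem_support_iff.mp hp, h.zero, one_mul, Finset.erase_eq_of_notMem hp]
    refine Finset.prod_congr rfl fun q hq => ?_
    have hqp : q ≠ p := fun h' => hp (by rw [← h']; exact hq)
    rw [Finsupp.erase_ne hqp]

theorem ex_update (x : ℕ →₀ ι) (p : ℕ) (ω : ℕ → E) (y : E) :
    ex e (x.erase p) (Function.update ω p y) = ex e (x.erase p) ω := by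
  unfold ex
  rw [Finsupp.support_erase]
  refine Finset.prod_congr rfl fun q hq => ?_
  rw [Function.update_of_ne (Finset.ne_of_mem_erase hq)]

end

theorem hci (h1 : S_ONE) (h2 : S_UPD) : S_HCI := by
  intro m hm
  obtain ⟨C, hC1, hone⟩ := h1 m hm
  refine ⟨C, hC1, ?_⟩
  intro E _ μ _ ι _ _ e v hsys S c
  have hC0 : 0 < C := by linarith
  obtain ⟨k, rfl⟩ : ∃ k, m = k + 1 := ⟨m - 1, by omega⟩
  -- induction on the set of the coordinates
  have key : ∀ (P : Finset ℕ) (S : Finset (ℕ →₀ ι)) (c : (ℕ →₀ ι) → ℂ), (∀ x ∈ S, x.support ⊆ P) →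
      ∫ ω, ‖∑ x ∈ S, c x * ex e x ω‖ ^ (2 * (k + 1)) ∂(Measure.infinitePi fun _ : ℕ => μ) ≤
        (∑ x ∈ S, ‖c x‖ ^ 2 * ∏ p ∈ x.support, (C * v (x p))) ^ (k + 1) := by
    intro P
    induction P using Finset.induction_on with
    | empty =>
      intro S c hS
      have hx0 : ∀ x ∈ S, x = 0 := by
        intro x hx
        have := hS x hx
        rw [Finset.subset_empty] at this
        exact Finsupp.support_eq_empty.mp this
      have hsub : S ⊆ {0} := fun x hx => Finset.mem_singleton.mpr (hx0 x hx)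
      rcases Finset.subset_singleton_iff.mp hsub with rfl | rfl
      · simp
      · simp [ex, pow_mul]
    | insert p P hp ih =>
      intro S c hS
      set Pr := (Measure.infinitePi fun _ : ℕ => μ) with hPr
      -- the parts
      let J : Finset ι := S.image (fun x => x p)
      let Sj : ι → Finset (ℕ →₀ ι) := fun j => S.filter (fun x => x p = j)
      let F : ι → (ℕ → E) → ℂ := fun j ω => ∑ x ∈ Sj j, c x * ex e (x.erase p) ω
      let A : ι → ℝ := fun j => ∑ x ∈ Sj j, ‖c x‖ ^ 2 * ∏ q ∈ (x.erase p).support, (C * v ((x.erase p) q))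
      let w : ι → ℝ := fun j => if j = 0 then 1 else C * v j
      have hv0 : ∀ j, 0 < v j := fun j => lt_of_lt_of_le one_pos (hsys.vpos j)
      have hw0 : ∀ j, 0 ≤ w j := by
        intro j
        show 0 ≤ (if j = 0 then 1 else C * v j)
        split_ifs
        · exact zero_le_one
        · exact (mul_pos hC0 (hv0 j)).le
      have hA0 : ∀ j, 0 ≤ A j := fun j => Finset.sum_nonneg fun x _ =>
        mul_nonneg (by positivity) (Finset.prod_nonneg fun q _ => (mul_pos hC0 (hv0 _)).le)
      have hFmeas : ∀ j, Measurable (F j) := fun j =>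
        Finset.measurable_sum _ fun x _ => (ex_meas hsys _).const_mul (c x)
      have hFbd : ∀ j ω, ‖F j ω‖ ≤ ∑ x ∈ Sj j, ‖c x‖ := by
        intro j ω
        refine (norm_sum_le _ _).trans (Finset.sum_le_sum fun x _ => ?_)
        rw [norm_mul]
        calc ‖c x‖ * ‖ex e (x.erase p) ω‖ ≤ ‖c x‖ * 1 :=
              mul_le_mul_of_nonneg_left (ex_norm hsys _ ω) (norm_nonneg _)
          _ = ‖c x‖ := mul_one _
      -- decomposition of the sum
      have hdec : ∀ ω, ∑ x ∈ S, c x * ex e x ω = ∑ j ∈ J, e j (ω p) * F j ω := by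
        intro ω
        rw [← Finset.sum_fiberwise_of_maps_to (s := S) (t := J) (g := fun x => x p)
          (fun x hx => Finset.mem_image_of_mem _ hx)]
        refine Finset.sum_congr rfl fun j _ => ?_
        show _ = e j (ω p) * ∑ x ∈ Sj j, c x * ex e (x.erase p) ω
        rw [Finset.mul_sum]
        refine Finset.sum_congr rfl fun x hx => ?_
        have hxj : x p = j := (Finset.mem_filter.mp hx).2
        rw [ex_split hsys x p ω, hxj]
        ring
      have hFupd : ∀ j ω y, F j (Function.update ω p y) = F j ω := by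
        intro j ω y
        refine Finset.sum_congr rfl fun x _ => ?_
        rw [ex_update]
      -- the inner integral
      have hinner : ∀ ω, ∫ y, ‖∑ x ∈ S, c x * ex e x (Function.update ω p y)‖ ^ (2 * (k + 1)) ∂μ ≤
          (∑ j ∈ J, w j * ‖F j ω‖ ^ 2) ^ (k + 1) := by
        intro ω
        let J0 : Finset ι := J.erase 0
        let a : ℂ := if (0 : ι) ∈ J then F 0 ω else 0
        let X : E → ℂ := fun y => ∑ j ∈ J0, e j y * F j ω
        let b : ℝ := Real.sqrt (∑ j ∈ J0, v j * ‖F j ω‖ ^ 2)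
        have hb2 : b ^ 2 = ∑ j ∈ J0, v j * ‖F j ω‖ ^ 2 :=
          Real.sq_sqrt (Finset.sum_nonneg fun j _ => mul_nonneg (hv0 j).le (by positivity))
        have hXm : Measurable X := Finset.measurable_sum _ fun j _ => (hsys.meas j).mul_const _
        have hXb : ∀ y, ‖X y‖ ≤ b := by
          intro y
          have h3 : ‖X y‖ ≤ ∑ j ∈ J0, ‖F j ω‖ := by
            refine (norm_sum_le _ _).trans (Finset.sum_le_sum fun j _ => ?_)
            rw [norm_mul]
            calc ‖e j y‖ * ‖F j ω‖ ≤ 1 * ‖F j ω‖ := mul_le_mul_of_nonneg_right (hsys.bd j y) (norm_nonneg _)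
              _ = ‖F j ω‖ := one_mul _
          have h4 : (∑ j ∈ J0, ‖F j ω‖) ^ 2 ≤ (∑ j ∈ J0, 1 / v j) * ∑ j ∈ J0, v j * ‖F j ω‖ ^ 2 := by
            have h5 := Finset.sum_mul_sq_le_sq_mul_sq J0 (fun j => Real.sqrt (1 / v j))
              (fun j => Real.sqrt (v j) * ‖F j ω‖)
            have e1 : ∀ j, Real.sqrt (1 / v j) * (Real.sqrt (v j) * ‖F j ω‖) = ‖F j ω‖ := by
              intro j
              rw [← mul_assoc, ← Real.sqrt_mul (by have := hv0 j; positivity), one_div,
                inv_mul_cancel₀ (hv0 j).ne', Real.sqrt_one, one_mul]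
            have e2 : ∀ j, Real.sqrt (1 / v j) ^ 2 = 1 / v j := fun j =>
              Real.sq_sqrt (by have := hv0 j; positivity)
            have e3 : ∀ j, (Real.sqrt (v j) * ‖F j ω‖) ^ 2 = v j * ‖F j ω‖ ^ 2 := fun j => by
              rw [mul_pow, Real.sq_sqrt (hv0 j).le]
            simp only [e1, e2, e3] at h5
            exact h5
          have h5 : ∑ j ∈ J0, 1 / v j ≤ 1 := hsys.vsum J0 (Finset.notMem_erase _ _)
          have h6 : (∑ j ∈ J0, ‖F j ω‖) ^ 2 ≤ b ^ 2 := by
            rw [hb2]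
            have h7 : 0 ≤ ∑ j ∈ J0, v j * ‖F j ω‖ ^ 2 :=
              Finset.sum_nonneg fun j _ => mul_nonneg (hv0 j).le (by positivity)
            calc (∑ j ∈ J0, ‖F j ω‖) ^ 2 ≤ (∑ j ∈ J0, 1 / v j) * ∑ j ∈ J0, v j * ‖F j ω‖ ^ 2 := h4
              _ ≤ 1 * ∑ j ∈ J0, v j * ‖F j ω‖ ^ 2 := mul_le_mul_of_nonneg_right h5 h7
              _ = _ := one_mul _
          have h7 : ∑ j ∈ J0, ‖F j ω‖ ≤ b :=
            (pow_le_pow_iff_left₀ (Finset.sum_nonneg fun _ _ => norm_nonneg _) (Real.sqrt_nonneg _)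
              (by norm_num)).mp h6
          exact h3.trans h7
        have hXint : ∫ y, X y ∂μ = 0 := by
          have hi : ∀ j ∈ J0, Integrable (fun y => e j y * F j ω) μ := by
            intro j _
            refine Integrable.mul_const ?_ _
            exact Integrable.of_bound (hsys.meas j).aestronglyMeasurable 1 (Eventually.of_forall (hsys.bd j))
          show ∫ y, ∑ j ∈ J0, e j y * F j ω ∂μ = 0
          rw [integral_finsetSum J0 hi]
          refine Finset.sum_eq_zero fun j hj => ?_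
          rw [integral_mul_const, hsys.mean j (Finset.ne_of_mem_erase hj), zero_mul]
        have hmain := hone E μ a X b hXm (Real.sqrt_nonneg _) hXb hXint
        have hsum : ∀ y, ∑ x ∈ S, c x * ex e x (Function.update ω p y) = a + X y := by
          intro y
          rw [hdec]
          simp only [Function.update_self, hFupd]
          show _ = (if (0 : ι) ∈ J then F 0 ω else 0) + ∑ j ∈ J0, e j y * F j ω
          by_cases h0 : (0 : ι) ∈ J
          · rw [if_pos h0, ← Finset.add_sum_erase J _ h0, hsys.zero, one_mul]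
          · rw [if_neg h0, zero_add]
            show _ = ∑ j ∈ J.erase 0, e j y * F j ω
            rw [Finset.erase_eq_of_notMem h0]
        have hrhs : ‖a‖ ^ 2 + C * b ^ 2 = ∑ j ∈ J, w j * ‖F j ω‖ ^ 2 := by
          rw [hb2, Finset.mul_sum]
          have h3 : ∑ j ∈ J0, C * (v j * ‖F j ω‖ ^ 2) = ∑ j ∈ J0, w j * ‖F j ω‖ ^ 2 := by
            refine Finset.sum_congr rfl fun j hj => ?_
            show _ = (if j = 0 then 1 else C * v j) * ‖F j ω‖ ^ 2
            rw [if_neg (Finset.ne_of_mem_erase hj)]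
            ring
          rw [h3]
          show ‖(if (0 : ι) ∈ J then F 0 ω else 0)‖ ^ 2 + _ = _
          by_cases h0 : (0 : ι) ∈ J
          · rw [if_pos h0, ← Finset.add_sum_erase J _ h0]
            congr 1
            show _ = (if (0 : ι) = 0 then 1 else C * v 0) * ‖F 0 ω‖ ^ 2
            rw [if_pos rfl, one_mul]
          · rw [if_neg h0, norm_zero]
            show (0 : ℝ) ^ 2 + ∑ j ∈ J.erase 0, w j * ‖F j ω‖ ^ 2 = _
            rw [Finset.erase_eq_of_notMem h0]
            ring
        simp only [hsum]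
        rw [← hrhs]
        exact hmain
      -- integration over one coordinate first
      have hFull : Measurable fun ω => ‖∑ x ∈ S, c x * ex e x ω‖ ^ (2 * (k + 1)) := by
        refine Measurable.pow_const (Measurable.norm ?_) _
        exact Finset.measurable_sum _ fun x _ => (ex_meas hsys x).const_mul (c x)
      have hbdd : ∀ ω, |‖∑ x ∈ S, c x * ex e x ω‖ ^ (2 * (k + 1))| ≤ (∑ x ∈ S, ‖c x‖) ^ (2 * (k + 1)) := by
        intro ω
        rw [abs_of_nonneg (by positivity)]
        refine pow_le_pow_left₀ (norm_nonneg _) ?_ _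
        refine (norm_sum_le _ _).trans (Finset.sum_le_sum fun x _ => ?_)
        rw [norm_mul]
        calc ‖c x‖ * ‖ex e x ω‖ ≤ ‖c x‖ * 1 := mul_le_mul_of_nonneg_left (ex_norm hsys _ ω) (norm_nonneg _)
          _ = ‖c x‖ := mul_one _
      rw [h2 E μ p (fun ω => ‖∑ x ∈ S, c x * ex e x ω‖ ^ (2 * (k + 1))) hFull ⟨_, hbdd⟩]
      -- Minkowski
      have hGi : ∀ j, Integrable (fun ω => (‖F j ω‖ ^ 2) ^ (k + 1)) Pr := by
        intro j
        refine Integrable.of_bound (((hFmeas j).norm.pow_const 2).pow_const (k + 1)).aestronglyMeasurable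
          (((∑ x ∈ Sj j, ‖c x‖) ^ 2) ^ (k + 1)) (Eventually.of_forall fun ω => ?_)
        rw [Real.norm_eq_abs, abs_of_nonneg (by positivity)]
        exact pow_le_pow_left₀ (by positivity) (pow_le_pow_left₀ (norm_nonneg _) (hFbd j ω) 2) _
      have hGA : ∀ j ∈ J, ∫ ω, (‖F j ω‖ ^ 2) ^ (k + 1) ∂Pr ≤ A j ^ (k + 1) := by
        intro j _
        -- the induction hypothesis for the family of the `x.erase p`
        have hinj : Set.InjOn (fun x : ℕ →₀ ι => x.erase p) (Sj j : Set (ℕ →₀ ι)) := by
          intro x hx y hy hxy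
          have hx' : x p = j := (Finset.mem_filter.mp hx).2
          have hy' : y p = j := (Finset.mem_filter.mp hy).2
          ext q
          by_cases hq : q = p
          · rw [hq, hx', hy']
          · have := congrArg (fun f : ℕ →₀ ι => f q) hxy
            simp only [Finsupp.erase_ne hq] at this
            exact this
        let c' : (ℕ →₀ ι) → ℂ := fun z => c (z.update p j)
        have hc' : ∀ x ∈ Sj j, c' (x.erase p) = c x := by
          intro x hx
          have hx' : x p = j := (Finset.mem_filter.mp hx).2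
          show c ((x.erase p).update p j) = c x
          congr 1
          ext q
          by_cases hq : q = p
          · rw [hq, Finsupp.coe_update, Function.update_self, hx']
          · rw [Finsupp.coe_update, Function.update_of_ne hq, Finsupp.erase_ne hq]
        have hih := ih ((Sj j).image (fun x => x.erase p)) c' (by
          intro z hz
          obtain ⟨x, hx, rfl⟩ := Finset.mem_image.mp hz
          have hxS := (Finset.mem_filter.mp hx).1
          rw [Finsupp.support_erase]
          intro q hq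
          have h3 := hS x hxS (Finset.mem_of_mem_erase hq)
          rcases Finset.mem_insert.mp h3 with h4 | h4
          · exact absurd h4 (Finset.ne_of_mem_erase hq)
          · exact h4)
        have e1 : ∀ ω, ∑ z ∈ (Sj j).image (fun x => x.erase p), c' z * ex e z ω = F j ω := by
          intro ω
          rw [Finset.sum_image hinj]
          refine Finset.sum_congr rfl fun x hx => ?_
          rw [hc' x hx]
        have e2 : ∑ z ∈ (Sj j).image (fun x => x.erase p), ‖c' z‖ ^ 2 * ∏ q ∈ z.support, (C * v (z q)) = A j := by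
          rw [Finset.sum_image hinj]
          refine Finset.sum_congr rfl fun x hx => ?_
          rw [hc' x hx]
        simp only [e1, e2] at hih
        have e3 : ∀ ω, ‖F j ω‖ ^ (2 * (k + 1)) = (‖F j ω‖ ^ 2) ^ (k + 1) := fun ω => pow_mul _ _ _
        simp only [e3] at hih
        exact hih
      have hmk := mink Pr k J w A (fun j ω => ‖F j ω‖ ^ 2) (fun j _ => hw0 j) (fun j _ => hA0 j)
        (fun j ω => by positivity) (fun j _ => hGi j) hGA
      have hintR : Integrable (fun ω => (∑ j ∈ J, w j * ‖F j ω‖ ^ 2) ^ (k + 1)) Pr := by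
        have hm' : Measurable fun ω => (∑ j ∈ J, w j * ‖F j ω‖ ^ 2) ^ (k + 1) :=
          (Finset.measurable_sum J fun j _ => ((hFmeas j).norm.pow_const 2).const_mul (w j)).pow_const _
        refine Integrable.of_bound hm'.aestronglyMeasurable
          ((∑ j ∈ J, w j * (∑ x ∈ Sj j, ‖c x‖) ^ 2) ^ (k + 1)) (Eventually.of_forall fun ω => ?_)
        have h0 : 0 ≤ ∑ j ∈ J, w j * ‖F j ω‖ ^ 2 :=
          Finset.sum_nonneg fun j _ => mul_nonneg (hw0 j) (by positivity)
        rw [Real.norm_eq_abs, abs_of_nonneg (pow_nonneg h0 _)]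
        refine pow_le_pow_left₀ h0 (Finset.sum_le_sum fun j _ => ?_) _
        exact mul_le_mul_of_nonneg_left (pow_le_pow_left₀ (norm_nonneg _) (hFbd j ω) 2) (hw0 j)
      have hfinal : ∑ j ∈ J, w j * A j = ∑ x ∈ S, ‖c x‖ ^ 2 * ∏ q ∈ x.support, (C * v (x q)) := by
        rw [← Finset.sum_fiberwise_of_maps_to (s := S) (t := J) (g := fun x => x p)
          (fun x hx => Finset.mem_image_of_mem _ hx)]
        refine Finset.sum_congr rfl fun j _ => ?_
        show w j * ∑ x ∈ Sj j, ‖c x‖ ^ 2 * ∏ q ∈ (x.erase p).support, (C * v ((x.erase p) q)) = _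
        rw [Finset.mul_sum]
        refine Finset.sum_congr rfl fun x hx => ?_
        have hxj : x p = j := (Finset.mem_filter.mp hx).2
        show (if j = 0 then 1 else C * v j) * _ = _
        rw [Finsupp.support_erase]
        have h3 : ∏ q ∈ x.support.erase p, (C * v ((x.erase p) q)) = ∏ q ∈ x.support.erase p, (C * v (x q)) := by
          refine Finset.prod_congr rfl fun q hq => ?_
          rw [Finsupp.erase_ne (Finset.ne_of_mem_erase hq)]
        rw [h3]
        by_cases hj : j = 0
        · rw [if_pos hj, one_mul]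
          have hps : p ∉ x.support := by
            rw [Finsupp.notMem_support_iff, hxj, hj]
          rw [Finset.erase_eq_of_notMem hps]
        · rw [if_neg hj]
          have hps : p ∈ x.support := by
            rw [Finsupp.mem_support_iff, hxj]
            exact hj
          rw [← Finset.mul_prod_erase x.support (fun q => C * v (x q)) hps, hxj]
          ring
      calc ∫ ω, (∫ y, ‖∑ x ∈ S, c x * ex e x (Function.update ω p y)‖ ^ (2 * (k + 1)) ∂μ) ∂Pr
          ≤ ∫ ω, (∑ j ∈ J, w j * ‖F j ω‖ ^ 2) ^ (k + 1) ∂Pr :=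
            integral_mono_of_nonneg (Eventually.of_forall fun ω => integral_nonneg fun y => by positivity)
              hintR (Eventually.of_forall hinner)
        _ ≤ (∑ j ∈ J, w j * A j) ^ (k + 1) := hmk
        _ = _ := by rw [hfinal]
  exact key (S.biUnion fun x => x.support) S c (fun x hx => Finset.subset_biUnion_of_mem (fun x => x.support) hx)

end Pool.Agent.Q166.HC
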