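import Pool.Agent.Q255.HC.Stm

/-!
# Project HC (helper255), jobs ONE and UPD, by helper166
-/

set_option autoImplicit false

namespace Pool.Agent.Q166.HC

open Finset Filter Topology MeasureTheory

/-- the expansion with remainder -/
theorem expand (A B y : ℝ) (hA : 0 ≤ A) (hB : 0 ≤ B) (h1 : |y| ≤ 3 * A) (h2 : y ^ 2 ≤ 9 * (A * B)) (m : ℕ) :
    |(A + y) ^ (m + 1) - A ^ (m + 1) - (m + 1) * A ^ m * y| ≤ 9 * 5 ^ (m + 1) * (A ^ m * B) := by
  induction m with
  | zero =>
    have e : (A + y) ^ (0 + 1) - A ^ (0 + 1) - ((0 : ℕ) + 1) * A ^ 0 * y = 0 := by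
      push_cast
      ring
    rw [e, abs_zero]
    positivity
  | succ m ih =>
    have e : (A + y) ^ (m + 1 + 1) - A ^ (m + 1 + 1) - (((m + 1 : ℕ) : ℝ) + 1) * A ^ (m + 1) * y =
        (A + y) * ((A + y) ^ (m + 1) - A ^ (m + 1) - (m + 1) * A ^ m * y) + (m + 1) * A ^ m * y ^ 2 := by
      push_cast
      ring
    rw [e]
    have h3 : |A + y| ≤ 4 * A := by
      calc |A + y| ≤ |A| + |y| := abs_add_le A y
        _ ≤ A + 3 * A := by rw [abs_of_nonneg hA]; linarith
        _ = 4 * A := by ring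
    have h4 : |(A + y) * ((A + y) ^ (m + 1) - A ^ (m + 1) - (m + 1) * A ^ m * y)| ≤
        (4 * A) * (9 * 5 ^ (m + 1) * (A ^ m * B)) := by
      rw [abs_mul]
      exact mul_le_mul h3 ih (abs_nonneg _) (by positivity)
    have h5 : |((m : ℝ) + 1) * A ^ m * y ^ 2| ≤ (m + 1) * A ^ m * (9 * (A * B)) := by
      rw [abs_of_nonneg (by positivity)]
      exact mul_le_mul_of_nonneg_left h2 (by positivity)
    have h6 : ((m : ℝ) + 1) ≤ 5 ^ (m + 1) := by
      have h7 : m + 1 < 5 ^ (m + 1) := Nat.lt_pow_self (by norm_num)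
      have h8 : ((m + 1 : ℕ) : ℝ) ≤ ((5 ^ (m + 1) : ℕ) : ℝ) := by exact_mod_cast h7.le
      push_cast at h8
      exact h8
    calc |(A + y) * ((A + y) ^ (m + 1) - A ^ (m + 1) - (m + 1) * A ^ m * y) + (m + 1) * A ^ m * y ^ 2|
        ≤ (4 * A) * (9 * 5 ^ (m + 1) * (A ^ m * B)) + (m + 1) * A ^ m * (9 * (A * B)) :=
          (abs_add_le _ _).trans (add_le_add h4 h5)
      _ = 9 * (4 * 5 ^ (m + 1) + (m + 1)) * (A ^ (m + 1) * B) := by ring
      _ ≤ 9 * (4 * 5 ^ (m + 1) + 5 ^ (m + 1)) * (A ^ (m + 1) * B) := by gcongr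
      _ = 9 * 5 ^ (m + 1 + 1) * (A ^ (m + 1) * B) := by ring

theorem one : Pool.Agent.Q255.HC.S_ONE := by
  intro m hm
  obtain ⟨k, rfl⟩ : ∃ k, m = k + 1 := ⟨m - 1, by omega⟩
  refine ⟨1 + 9 * 5 ^ (k + 1), by
    have : (0 : ℝ) ≤ 9 * 5 ^ (k + 1) := by positivity
    linarith, ?_⟩
  intro E _ μ _ a X b hX hb hXb hmean
  set C : ℝ := 1 + 9 * 5 ^ (k + 1) with hC
  have hC4 : 4 ≤ C := by
    have h1 : (5 : ℝ) ≤ 5 ^ (k + 1) := by
      calc (5 : ℝ) = 5 ^ 1 := by norm_num
        _ ≤ 5 ^ (k + 1) := pow_le_pow_right₀ (by norm_num) (by omega)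
    rw [hC]
    linarith
  have hpow : ∀ y, ‖a + X y‖ ^ (2 * (k + 1)) = (‖a + X y‖ ^ 2) ^ (k + 1) := fun y => by rw [← pow_mul]
  simp only [hpow]
  have hbound : ∀ y, ‖a + X y‖ ≤ ‖a‖ + b := fun y => (norm_add_le _ _).trans (by linarith [hXb y])
  have hmeas : Measurable fun y => ‖a + X y‖ := (hX.const_add a).norm
  rcases lt_or_ge ‖a‖ b with hab | hab
  · -- the easy case
    have h1 : ∀ y, (‖a + X y‖ ^ 2) ^ (k + 1) ≤ (‖a‖ ^ 2 + C * b ^ 2) ^ (k + 1) := by
      intro y
      refine pow_le_pow_left₀ (by positivity) ?_ _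
      have h2 : ‖a + X y‖ ≤ 2 * b := (hbound y).trans (by linarith)
      have h3 : ‖a + X y‖ ^ 2 ≤ (2 * b) ^ 2 := pow_le_pow_left₀ (norm_nonneg _) h2 2
      nlinarith [sq_nonneg ‖a‖, sq_nonneg b]
    calc ∫ y, (‖a + X y‖ ^ 2) ^ (k + 1) ∂μ ≤ ∫ _y, (‖a‖ ^ 2 + C * b ^ 2) ^ (k + 1) ∂μ := by
          refine integral_mono_of_nonneg (Eventually.of_forall fun y => by positivity)
            (integrable_const _) (Eventually.of_forall h1)
      _ = (‖a‖ ^ 2 + C * b ^ 2) ^ (k + 1) := by simp
  · -- the main case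
    set A : ℝ := ‖a‖ ^ 2 with hA
    set B : ℝ := b ^ 2 with hB
    have hA0 : 0 ≤ A := by positivity
    have hB0 : 0 ≤ B := by positivity
    let Y : E → ℝ := fun y => ‖a + X y‖ ^ 2 - A
    have hYform : ∀ y, Y y = 2 * ((starRingEnd ℂ) a * X y).re + ‖X y‖ ^ 2 := by
      intro y
      show ‖a + X y‖ ^ 2 - ‖a‖ ^ 2 = _
      rw [← Complex.normSq_eq_norm_sq, ← Complex.normSq_eq_norm_sq, ← Complex.normSq_eq_norm_sq,
        Complex.normSq_add]
      have e : (a * (starRingEnd ℂ) (X y)).re = ((starRingEnd ℂ) a * X y).re := by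
        simp [Complex.mul_re]
      rw [e]
      ring
    have hYabs : ∀ y, |Y y| ≤ 3 * (‖a‖ * b) := by
      intro y
      rw [hYform]
      have h1 : |((starRingEnd ℂ) a * X y).re| ≤ ‖a‖ * b := by
        calc |((starRingEnd ℂ) a * X y).re| ≤ ‖(starRingEnd ℂ) a * X y‖ := Complex.abs_re_le_norm _
          _ = ‖a‖ * ‖X y‖ := by rw [norm_mul, RCLike.norm_conj]
          _ ≤ ‖a‖ * b := mul_le_mul_of_nonneg_left (hXb y) (norm_nonneg a)
      have h2 : ‖X y‖ ^ 2 ≤ ‖a‖ * b := by
        calc ‖X y‖ ^ 2 ≤ b ^ 2 := pow_le_pow_left₀ (norm_nonneg _) (hXb y) 2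
          _ = b * b := sq b
          _ ≤ ‖a‖ * b := mul_le_mul_of_nonneg_right hab hb
      calc |2 * ((starRingEnd ℂ) a * X y).re + ‖X y‖ ^ 2|
          ≤ |2 * ((starRingEnd ℂ) a * X y).re| + |‖X y‖ ^ 2| := abs_add_le _ _
        _ ≤ 2 * (‖a‖ * b) + ‖a‖ * b := by
            rw [abs_mul, abs_two, abs_of_nonneg (by positivity : (0 : ℝ) ≤ ‖X y‖ ^ 2)]
            linarith
        _ = 3 * (‖a‖ * b) := by ring
    have hpt : ∀ y, (‖a + X y‖ ^ 2) ^ (k + 1) ≤
        A ^ (k + 1) + (k + 1) * A ^ k * Y y + 9 * 5 ^ (k + 1) * (A ^ k * B) := by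
      intro y
      have h1 : |Y y| ≤ 3 * A := (hYabs y).trans (by
        have : ‖a‖ * b ≤ ‖a‖ * ‖a‖ := mul_le_mul_of_nonneg_left hab (norm_nonneg a)
        rw [hA, sq]
        linarith)
      have h2 : (Y y) ^ 2 ≤ 9 * (A * B) := by
        calc (Y y) ^ 2 = |Y y| ^ 2 := (sq_abs _).symm
          _ ≤ (3 * (‖a‖ * b)) ^ 2 := pow_le_pow_left₀ (abs_nonneg _) (hYabs y) 2
          _ = 9 * (A * B) := by rw [hA, hB]; ring
      have h3 := (abs_le.mp (expand A B (Y y) hA0 hB0 h1 h2 k)).2
      have e : A + Y y = ‖a + X y‖ ^ 2 := by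
        show A + (‖a + X y‖ ^ 2 - A) = _
        ring
      rw [e] at h3
      linarith
    have hX2 : Integrable (fun y => ‖X y‖ ^ 2) μ := by
      refine Integrable.of_bound (hX.norm.pow_const 2).aestronglyMeasurable (b ^ 2)
        (Eventually.of_forall fun y => ?_)
      rw [Real.norm_eq_abs, abs_of_nonneg (by positivity)]
      exact pow_le_pow_left₀ (norm_nonneg _) (hXb y) 2
    have hXi : Integrable X μ := by
      refine Integrable.of_bound hX.aestronglyMeasurable b (Eventually.of_forall hXb)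
    have hRi : Integrable (fun y => ((starRingEnd ℂ) a * X y).re) μ := (hXi.const_mul _).re
    have hYi : Integrable Y μ := by
      have : Y = fun y => 2 * ((starRingEnd ℂ) a * X y).re + ‖X y‖ ^ 2 := funext hYform
      rw [this]
      exact (hRi.const_mul 2).add hX2
    have hYint : ∫ y, Y y ∂μ ≤ B := by
      have e : ∫ y, Y y ∂μ = 2 * ∫ y, ((starRingEnd ℂ) a * X y).re ∂μ + ∫ y, ‖X y‖ ^ 2 ∂μ := by
        rw [← integral_const_mul, ← integral_add (hRi.const_mul 2) hX2]
        exact integral_congr_ae (Eventually.of_forall hYform)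
      have e2 : ∫ y, ((starRingEnd ℂ) a * X y).re ∂μ = 0 := by
        have h1 := integral_re (𝕜 := ℂ) (hXi.const_mul ((starRingEnd ℂ) a))
        have h2 : ∫ y, (starRingEnd ℂ) a * X y ∂μ = 0 := by
          rw [integral_const_mul, hmean, mul_zero]
        rw [h2] at h1
        have h3 : (RCLike.re (0 : ℂ) : ℝ) = 0 := by simp
        rw [h3] at h1
        exact h1
      rw [e, e2, mul_zero, zero_add]
      calc ∫ y, ‖X y‖ ^ 2 ∂μ ≤ ∫ _y, b ^ 2 ∂μ := integral_mono hX2 (integrable_const _)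
            (fun y => pow_le_pow_left₀ (norm_nonneg _) (hXb y) 2)
        _ = B := by simp [hB]
    have hi1 : Integrable (fun y => A ^ (k + 1) + (k + 1) * A ^ k * Y y) μ :=
      (integrable_const _).add (hYi.const_mul _)
    calc ∫ y, (‖a + X y‖ ^ 2) ^ (k + 1) ∂μ
        ≤ ∫ y, (A ^ (k + 1) + (k + 1) * A ^ k * Y y + 9 * 5 ^ (k + 1) * (A ^ k * B)) ∂μ := by
          refine integral_mono_of_nonneg (Eventually.of_forall fun y => by positivity) ?_
            (Eventually.of_forall hpt)
          exact hi1.add (integrable_const _)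
      _ = A ^ (k + 1) + (k + 1) * A ^ k * ∫ y, Y y ∂μ + 9 * 5 ^ (k + 1) * (A ^ k * B) := by
          rw [integral_add hi1 (integrable_const _), integral_add (integrable_const _) (hYi.const_mul _), integral_const_mul]
          simp
      _ ≤ A ^ (k + 1) + (k + 1) * A ^ k * B + 9 * 5 ^ (k + 1) * (A ^ k * B) := by gcongr
      _ ≤ A ^ (k + 1) + (k + 1) * A ^ k * (C * B) := by
          have h1 : (9 : ℝ) * 5 ^ (k + 1) * (A ^ k * B) ≤ (k + 1) * (9 * 5 ^ (k + 1) * (A ^ k * B)) := by
            have h2 : (0 : ℝ) ≤ 9 * 5 ^ (k + 1) * (A ^ k * B) := by positivity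
            have h3 : (0 : ℝ) ≤ k := Nat.cast_nonneg k
            nlinarith
          rw [hC]
          linarith
      _ ≤ (A + C * B) ^ (k + 1) := by
          have h1 : ∀ j : ℕ, ∀ z : ℝ, 0 ≤ z → A ^ (j + 1) + (j + 1) * A ^ j * z ≤ (A + z) ^ (j + 1) := by
            intro j z hz
            induction j with
            | zero => simp
            | succ j ih =>
              have h2 : (A + z) ^ (j + 1 + 1) = (A + z) * (A + z) ^ (j + 1) := by ring
              rw [h2]
              have h3 : (A + z) * (A ^ (j + 1) + (j + 1) * A ^ j * z) ≤ (A + z) * (A + z) ^ (j + 1) :=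
                mul_le_mul_of_nonneg_left ih (by linarith)
              have h4 : (A + z) * (A ^ (j + 1) + (j + 1) * A ^ j * z) =
                  A ^ (j + 1 + 1) + (((j + 1 : ℕ) : ℝ) + 1) * A ^ (j + 1) * z + (j + 1) * A ^ j * z ^ 2 := by
                push_cast
                ring
              have h5 : 0 ≤ ((j : ℝ) + 1) * A ^ j * z ^ 2 := by positivity
              linarith
          exact h1 k (C * B) (by positivity)

/-- replacing one coordinate by an independent value -/
theorem upd_map (E : Type) [MeasurableSpace E] (μ : Measure E) [IsProbabilityMeasure μ] (p : ℕ) :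
    Measure.map (fun z : (ℕ → E) × E => Function.update z.1 p z.2)
      ((Measure.infinitePi fun _ : ℕ => μ).prod μ) = Measure.infinitePi fun _ : ℕ => μ := by
  have hmeas : Measurable fun z : (ℕ → E) × E => Function.update z.1 p z.2 := by
    rw [measurable_pi_iff]
    intro i
    by_cases hi : i = p
    · subst hi
      simp only [Function.update_self]
      exact measurable_snd
    · simp only [Function.update_of_ne hi]
      exact (measurable_pi_apply i).comp measurable_fst
  apply Measure.eq_infinitePi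
  intro s t ht
  have hpi : MeasurableSet (Set.pi (s : Set ℕ) t) := MeasurableSet.pi s.countable_toSet fun i _ => ht i
  rw [Measure.map_apply hmeas hpi]
  classical
  by_cases hp : p ∈ s
  · have hset : (fun z : (ℕ → E) × E => Function.update z.1 p z.2) ⁻¹' (Set.pi (s : Set ℕ) t) =
        (Set.pi ((s.erase p : Finset ℕ) : Set ℕ) t) ×ˢ (t p) := by
      ext ⟨ω, y⟩
      simp only [Set.mem_preimage, Set.mem_pi, Finset.mem_coe, Set.mem_prod, Finset.mem_erase]
      constructor
      · intro h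
        refine ⟨fun i hi => ?_, ?_⟩
        · have := h i hi.2
          rwa [Function.update_of_ne hi.1] at this
        · have := h p hp
          rwa [Function.update_self] at this
      · rintro ⟨h1, h2⟩ i hi
        by_cases hip : i = p
        · subst hip
          rw [Function.update_self]
          exact h2
        · rw [Function.update_of_ne hip]
          exact h1 i ⟨hip, hi⟩
    rw [hset, Measure.prod_prod, Measure.infinitePi_pi (fun _ : ℕ => μ) (fun i _ => ht i),
      Finset.prod_erase_mul s (fun i => μ (t i)) hp]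
  · have hset : (fun z : (ℕ → E) × E => Function.update z.1 p z.2) ⁻¹' (Set.pi (s : Set ℕ) t) =
        (Set.pi (s : Set ℕ) t) ×ˢ Set.univ := by
      ext ⟨ω, y⟩
      simp only [Set.mem_preimage, Set.mem_pi, Finset.mem_coe, Set.mem_prod, Set.mem_univ, and_true]
      refine forall₂_congr fun i hi => ?_
      have hip : i ≠ p := fun h => hp (h ▸ hi)
      rw [Function.update_of_ne hip]
    rw [hset, Measure.prod_prod, Measure.infinitePi_pi (fun _ : ℕ => μ) (fun i _ => ht i), measure_univ, mul_one]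

theorem upd : Pool.Agent.Q255.HC.S_UPD := by
  intro E _ μ _ p F hF hK
  obtain ⟨K, hK⟩ := hK
  have hmeas : Measurable fun z : (ℕ → E) × E => Function.update z.1 p z.2 := by
    rw [measurable_pi_iff]
    intro i
    by_cases hi : i = p
    · subst hi
      simp only [Function.update_self]
      exact measurable_snd
    · simp only [Function.update_of_ne hi]
      exact (measurable_pi_apply i).comp measurable_fst
  have h1 : ∫ ω, F ω ∂(Measure.infinitePi fun _ : ℕ => μ) =
      ∫ z, F (Function.update z.1 p z.2) ∂((Measure.infinitePi fun _ : ℕ => μ).prod μ) := by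
    conv_lhs => rw [← upd_map E μ p]
    rw [integral_map hmeas.aemeasurable hF.aestronglyMeasurable]
  rw [h1, integral_prod]
  refine Integrable.of_bound (hF.comp hmeas).aestronglyMeasurable K (Eventually.of_forall fun z => ?_)
  rw [Real.norm_eq_abs]
  exact hK _

end Pool.Agent.Q166.HC
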